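import Mathlib

set_option autoImplicit false

namespace Pool.Agent.Results.MP_43f1fb_co.AlternatingMajority

/-- The adjacent transposition `s_i` of `i` and `i + 1`. Permutations of `[n] = {1,…,n}` are
represented by permutations of `ℕ` fixing every point outside `[n]`. -/
def s (i : ℕ) : Equiv.Perm ℕ := Equiv.swap i (i + 1)

/-- The product `s_{j_1} ⋯ s_{j_m}` of a word. -/
def prodWord (w : List ℕ) : Equiv.Perm ℕ := (w.map s).prod

/-- One commutation move. -/
inductive CommStep : List ℕ → List ℕ → Prop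
  | swap (x y : List ℕ) (a b : ℕ) (h : a + 2 ≤ b ∨ b + 2 ≤ a) :
      CommStep (x ++ a :: b :: y) (x ++ b :: a :: y)

/-- The commutation class of a word. -/
def commClass (w : List ℕ) : Set (List ℕ) := {v | Relation.ReflTransGen CommStep w v}

/-- All products of prefixes of words in the commutation class of `w`. -/
def Pre (w : List ℕ) : Set (Equiv.Perm ℕ) :=
  {x | ∃ v ∈ commClass w, ∃ m ≤ v.length, x = prodWord (v.take m)}

/-- The letters `1, 3, 5, …` up to `n - 1`. -/
def oddLetters (n : ℕ) : List ℕ := (List.range n).filter (fun i => i % 2 = 1)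

/-- The letters `2, 4, 6, …` up to `n - 1`. -/
def evenLetters (n : ℕ) : List ℕ := (List.range n).filter (fun i => 2 ≤ i ∧ i % 2 = 0)

/-- The alternating word with `t` blocks: odd letters, even letters, odd letters, …. -/
def altWord (n : ℕ) : ℕ → List ℕ
  | 0 => []
  | t + 1 => altWord n t ++ (if t % 2 = 0 then oddLetters n else evenLetters n)

/-- The bipartite Coxeter element `c = c_odd c_even`. -/
def cox (n : ℕ) : Equiv.Perm ℕ := prodWord (oddLetters n) * prodWord (evenLetters n)

/-- The permutation `u_p`: `c^{(p-1)/2} c_odd` for odd `p`, `c^{p/2}` for even `p`. -/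
def u (n p : ℕ) : Equiv.Perm ℕ :=
  if p % 2 = 1 then cox n ^ ((p - 1) / 2) * prodWord (oddLetters n) else cox n ^ (p / 2)

/-- The majority relation of the uniform tally on `D`: `a ≺_D b`. In the order encoded by
`x`, `a` comes before `b` iff the position `x⁻¹ a` is smaller than `x⁻¹ b`. -/
def Majority (D : Set (Equiv.Perm ℕ)) (a b : ℕ) : Prop :=
  {x ∈ D | x⁻¹ b < x⁻¹ a}.ncard < {x ∈ D | x⁻¹ a < x⁻¹ b}.ncard

/-! ### blocks -/

/-- block number `t` -/
def block (n t : ℕ) : List ℕ := if t % 2 = 0 then oddLetters n else evenLetters n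

lemma mem_block {n t i : ℕ} : i ∈ block n t ↔ 1 ≤ i ∧ i < n ∧ i % 2 ≠ t % 2 := by
  unfold block oddLetters evenLetters
  split_ifs with h
  · simp only [List.mem_filter, List.mem_range, decide_eq_true_eq]; omega
  · simp only [List.mem_filter, List.mem_range, decide_eq_true_eq]; omega

lemma block_pairwise (n t : ℕ) : (block n t).Pairwise (fun a b => a + 2 ≤ b) := by
  have h : (block n t).Pairwise (fun a b => a < b) := by
    unfold block oddLetters evenLetters
    split_ifs
    · exact List.Pairwise.filter _ List.pairwise_lt_range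
    · exact List.Pairwise.filter _ List.pairwise_lt_range
  refine h.imp_of_mem ?_
  intro a b ha hb hab
  rw [mem_block] at ha hb
  omega

lemma altWord_succ (n t : ℕ) : altWord n (t + 1) = altWord n t ++ block n t := rfl

lemma prodWord_append (u v : List ℕ) : prodWord (u ++ v) = prodWord u * prodWord v := by
  simp [prodWord]

lemma prodWord_nil : prodWord [] = 1 := rfl

lemma prodWord_singleton (i : ℕ) : prodWord [i] = s i := by simp [prodWord]

lemma s_apply (i q : ℕ) : s i q = if q = i then i + 1 else if q = i + 1 then i else q := by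
  unfold s; rw [Equiv.swap_apply_def]

lemma prodWord_gap : ∀ (L : List ℕ), L.Pairwise (fun a b => a + 2 ≤ b) → ∀ q : ℕ,
    (q ∈ L → prodWord L q = q + 1) ∧ (∀ r ∈ L, q = r + 1 → prodWord L q = r) ∧
    (q ∉ L → (∀ r ∈ L, q ≠ r + 1) → prodWord L q = q)
  | [], _, q => by simp [prodWord]
  | a :: L, hL, q => by
    rw [List.pairwise_cons] at hL
    have ih := prodWord_gap L hL.2 q
    have hc : prodWord (a :: L) q = s a (prodWord L q) := by simp [prodWord]
    rw [hc]
    refine ⟨?_, ?_, ?_⟩
    · intro hq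
      rw [List.mem_cons] at hq
      rcases hq with rfl | hq
      · have h1 : prodWord L q = q := by
          refine ih.2.2 ?_ ?_
          · intro h; have := hL.1 q h; omega
          · intro r hr h; have := hL.1 r hr; omega
        rw [h1, s_apply]; simp
      · rw [ih.1 hq, s_apply]
        have := hL.1 q hq
        split_ifs <;> omega
    · intro r hr hq
      rw [List.mem_cons] at hr
      rcases hr with rfl | hr
      · have h1 : prodWord L q = q := by
          refine ih.2.2 ?_ ?_
          · intro h; have := hL.1 q h; omega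
          · intro r' hr' h; have := hL.1 r' hr'; omega
        rw [h1, s_apply]; split_ifs <;> omega
      · rw [ih.2.1 r hr hq, s_apply]
        have := hL.1 r hr
        split_ifs <;> omega
    · intro hq hq'
      rw [List.mem_cons, not_or] at hq
      have h1 : prodWord L q = q := ih.2.2 hq.2 (fun r hr => hq' r (List.mem_cons_of_mem _ hr))
      have h2 := hq' a List.mem_cons_self
      rw [h1, s_apply]
      split_ifs <;> omega

/-- Explicit form of the product of the first `t` blocks. -/
def Uval (n t q : ℕ) : ℕ :=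
  if q % 2 ≠ t % 2 then (if t < q then q - t else t - q + 1)
  else (if q + t ≤ n then q + t else 2 * n + 1 - q - t)

lemma U_eq (n : ℕ) : ∀ (t : ℕ), t ≤ n → ∀ q, 1 ≤ q → q ≤ n →
    prodWord (altWord n t) q = Uval n t q
  | 0, _, q, h1, h2 => by
    simp only [altWord, prodWord_nil, Equiv.Perm.coe_one, id, Uval]
    split_ifs <;> omega
  | t + 1, ht, q, h1, h2 => by
    have ih := U_eq n t (by omega)
    rw [altWord_succ, prodWord_append, Equiv.Perm.mul_apply]
    have hb := prodWord_gap (block n t) (block_pairwise n t) q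
    by_cases hq : q ∈ block n t
    · rw [hb.1 hq]
      rw [mem_block] at hq
      rw [ih (q + 1) (by omega) (by omega)]
      unfold Uval
      split_ifs <;> omega
    · by_cases hq2 : q - 1 ∈ block n t
      · have hq3 := hq2
        rw [mem_block] at hq hq3
        rw [hb.2.1 (q - 1) hq2 (by omega), ih (q - 1) (by omega) (by omega)]
        unfold Uval
        split_ifs <;> omega
      · have h3 : prodWord (block n t) q = q := by
          refine hb.2.2 hq ?_
          intro r hr h
          apply hq2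
          have : q - 1 = r := by omega
          rw [this]; exact hr
        rw [mem_block] at hq hq2
        rw [h3, ih q h1 h2]
        unfold Uval
        split_ifs <;> omega

/-! ### counting letters -/

lemma block_nodup (n t : ℕ) : (block n t).Nodup :=
  (block_pairwise n t).imp (fun {a b} h => by omega)

lemma count_block (n t i : ℕ) :
    (block n t).count i = if 1 ≤ i ∧ i < n ∧ i % 2 ≠ t % 2 then 1 else 0 := by
  split_ifs with h
  · exact List.count_eq_one_of_mem (block_nodup n t) (mem_block.2 h)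
  · exact List.count_eq_zero_of_not_mem (fun h' => h (mem_block.1 h'))

lemma count_altWord (n i : ℕ) (h1 : 1 ≤ i) (h2 : i < n) : ∀ t : ℕ,
    (altWord n t).count i = (t + i % 2) / 2
  | 0 => by simp [altWord]
  | t + 1 => by
    rw [altWord_succ, List.count_append, count_altWord n i h1 h2 t, count_block]
    split_ifs <;> omega

lemma count_altWord_out (n i : ℕ) (h1 : i = 0 ∨ n ≤ i) : ∀ t : ℕ,
    (altWord n t).count i = 0
  | 0 => by simp [altWord]
  | t + 1 => by
    rw [altWord_succ, List.count_append, count_altWord_out n i h1 t, count_block]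
    split_ifs <;> omega

/-- alternation of neighbouring letters in all prefixes -/
def Good (n : ℕ) (v : List ℕ) : Prop :=
  ∀ m o e, o % 2 = 1 → e % 2 = 0 → (o + 1 = e ∨ e + 1 = o) → 1 ≤ o → o < n → 1 ≤ e → e < n →
    (v.take m).count e ≤ (v.take m).count o ∧ (v.take m).count o ≤ (v.take m).count e + 1

lemma good_altWord (n : ℕ) : ∀ t, Good n (altWord n t)
  | 0 => by intro m o e _ _ _ _ _ _ _; simp [altWord]
  | t + 1 => by
    intro m o e ho he hoe h1 h2 h3 h4
    rw [altWord_succ, List.take_append]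
    by_cases hm : m ≤ (altWord n t).length
    · have : m - (altWord n t).length = 0 := by omega
      rw [this, List.take_zero, List.append_nil]
      exact good_altWord n t m o e ho he hoe h1 h2 h3 h4
    · rw [List.take_of_length_le (by omega), List.count_append, List.count_append,
        count_altWord n o h1 h2, count_altWord n e h3 h4]
      have h5 := (List.take_sublist (m - (altWord n t).length) (block n t)).count_le o
      have h6 := (List.take_sublist (m - (altWord n t).length) (block n t)).count_le e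
      rw [count_block] at h5 h6
      split_ifs at h5 h6 <;> omega

lemma good_step {n : ℕ} {v v' : List ℕ} (h : CommStep v v') (hg : Good n v) : Good n v' := by
  obtain ⟨x, y, a, b, hab⟩ := h
  intro m o e ho he hoe h1 h2 h3 h4
  have hA := hg x.length o e ho he hoe h1 h2 h3 h4
  have hB := hg (x.length + 2) o e ho he hoe h1 h2 h3 h4
  have hC := hg m o e ho he hoe h1 h2 h3 h4
  have e1 : (x ++ a :: b :: y).take x.length = x := by simp
  have e2 : (x ++ a :: b :: y).take (x.length + 2) = x ++ [a, b] := by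
    rw [List.take_append]; simp
  rw [e1] at hA
  rw [e2] at hB
  simp only [List.count_append, List.count_cons, List.count_nil, beq_iff_eq] at hB
  rcases Nat.lt_trichotomy m (x.length + 1) with hm | hm | hm
  · have e3 : (x ++ b :: a :: y).take m = x.take m := by
      rw [List.take_append, show m - x.length = 0 by omega]; simp
    have e4 : (x ++ a :: b :: y).take m = x.take m := by
      rw [List.take_append, show m - x.length = 0 by omega]; simp
    rw [e3]; rw [e4] at hC; exact hC
  · have e3 : (x ++ b :: a :: y).take m = x ++ [b] := by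
      rw [hm, List.take_append]; simp
    rw [e3]
    simp only [List.count_append, List.count_cons, List.count_nil, beq_iff_eq]
    split_ifs at hB ⊢ <;> omega
  · obtain ⟨k, rfl⟩ : ∃ k, m = x.length + (k + 2) := ⟨m - x.length - 2, by omega⟩
    have e3 : (x ++ b :: a :: y).take (x.length + (k + 2)) = x ++ b :: a :: y.take k := by
      rw [List.take_append, List.take_of_length_le (by omega),
        show x.length + (k + 2) - x.length = k + 2 by omega]
      simp
    have e4 : (x ++ a :: b :: y).take (x.length + (k + 2)) = x ++ a :: b :: y.take k := by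
      rw [List.take_append, List.take_of_length_le (by omega),
        show x.length + (k + 2) - x.length = k + 2 by omega]
      simp
    rw [e3]; rw [e4] at hC
    simp only [List.count_append, List.count_cons] at hC ⊢
    omega

lemma perm_step {v v' : List ℕ} (h : CommStep v v') : v.Perm v' := by
  obtain ⟨x, y, a, b, hab⟩ := h
  exact List.Perm.append_left x (List.Perm.swap b a y)

lemma class_good {n t : ℕ} {v : List ℕ} (h : v ∈ commClass (altWord n t)) : Good n v := by
  induction h with
  | refl => exact good_altWord n t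
  | tail _ hs ih => exact good_step hs ih

lemma class_perm {w : List ℕ} {v : List ℕ} (h : v ∈ commClass w) : w.Perm v := by
  induction h with
  | refl => exact List.Perm.refl _
  | tail _ hs ih => exact ih.trans (perm_step hs)

/-! ### heights -/

/-- height function of a prefix -/
def hgt (n : ℕ) (w : List ℕ) (i : ℕ) : ℕ :=
  if 1 ≤ i ∧ i < n then 2 * w.count i + (if i % 2 = 0 then 1 else 0) else 0

/-- admissible height functions -/
def Adm (n p : ℕ) : Set (ℕ → ℕ) :=
  {h | (∀ i, 1 ≤ i → i < n → h i % 2 ≠ i % 2 ∧ h i ≤ 2 * p + 1) ∧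
    (∀ i, 1 ≤ i → i + 1 < n → h i = h (i + 1) + 1 ∨ h (i + 1) = h i + 1) ∧
    (∀ i, (i = 0 ∨ n ≤ i) → h i = 0)}

lemma hgt_adm {n p : ℕ} {v : List ℕ} (h : v ∈ commClass (altWord n (2 * p))) (m : ℕ) :
    hgt n (v.take m) ∈ Adm n p := by
  have hg := class_good h
  have hp := class_perm h
  refine ⟨?_, ?_, ?_⟩
  · intro i h1 h2
    have h3 := (List.take_sublist m v).count_le i
    rw [← hp.count_eq, count_altWord n i h1 h2] at h3
    unfold hgt
    split_ifs <;> omega
  · intro i h1 h2
    unfold hgt
    rcases Nat.mod_two_eq_zero_or_one i with hi | hi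
    · have := hg m (i + 1) i (by omega) (by omega) (by omega) (by omega) (by omega) (by omega)
        (by omega)
      split_ifs <;> omega
    · have := hg m i (i + 1) (by omega) (by omega) (by omega) (by omega) (by omega) (by omega)
        (by omega)
      split_ifs <;> omega
  · intro i hi
    unfold hgt
    split_ifs <;> omega

/-- relevant time for position `q` -/
def M (n : ℕ) (h : ℕ → ℕ) (q : ℕ) : ℕ :=
  if q = 1 then h 1 else if q = n then h (n - 1) else min (h (q - 1)) (h q)

/-- the inversion description -/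
def InvDesc (n : ℕ) (h : ℕ → ℕ) (x : Equiv.Perm ℕ) : Prop :=
  ∀ a b, 1 ≤ a → a < b → b ≤ n →
    (x⁻¹ b < x⁻¹ a ↔ ∃ i t, 1 ≤ i ∧ i < n ∧ i % 2 ≠ t % 2 ∧ t < h i ∧
      Uval n t i = a ∧ Uval n t (i + 1) = b)

/-- the state description -/
def State (n : ℕ) (h : ℕ → ℕ) (x : Equiv.Perm ℕ) : Prop :=
  (∀ q, 1 ≤ q → q ≤ n → x q = Uval n (M n h q) q) ∧
  (∀ q, (q = 0 ∨ n < q) → x q = q)


/-- one more letter: the state description is propagated -/
lemma state_step {n p : ℕ} (hn : 3 ≤ n) (hpn : 2 * p ≤ n) {h h' : ℕ → ℕ} (hh : h ∈ Adm n p)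
    (hh' : h' ∈ Adm n p) {x : Equiv.Perm ℕ} {j : ℕ} (j1 : 1 ≤ j) (j2 : j < n)
    (hj : h' j = h j + 2) (hne : ∀ i, i ≠ j → h' i = h i)
    (hx : State n h x) : State n h' (x * s j) := by
  obtain ⟨a1, a2, a3⟩ := hh
  obtain ⟨b1, b2, b3⟩ := hh'
  have pj := a1 j j1 j2
  have pj' := b1 j j1 j2
  -- neighbours
  have nl : 2 ≤ j → h (j - 1) = h j + 1 := by
    intro h2
    have e1 := a2 (j - 1) (by omega) (by omega)
    have e2 := b2 (j - 1) (by omega) (by omega)
    rw [show j - 1 + 1 = j by omega] at e1 e2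
    have e3 := hne (j - 1) (by omega)
    omega
  have nr : j + 1 < n → h (j + 1) = h j + 1 := by
    intro h2
    have e1 := a2 j (by omega) (by omega)
    have e2 := b2 j (by omega) (by omega)
    have e3 := hne (j + 1) (by omega)
    omega
  have hj1 := hx.1 j j1 (by omega)
  have hj2 := hx.1 (j + 1) (by omega) (by omega)
  refine ⟨?_, ?_⟩
  · intro q q1 q2
    rw [Equiv.Perm.mul_apply, s_apply]
    by_cases hq : q = j
    · subst hq
      rw [if_pos rfl, hj2]
      unfold M
      rcases Nat.lt_or_ge q 2 with c1 | c1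
      · have : q = 1 := by omega
        subst this
        rcases Nat.lt_or_ge 2 n with c2 | c2
        · have e := nr (by omega)
          simp only [show (1 + 1 = 1) = False by simp, if_false, if_true,
            show (1 + 1 - 1) = 1 by rfl]
          rw [if_neg (by omega), e, hj, Nat.min_eq_left (by omega)]
          unfold Uval
          split_ifs <;> omega
        · omega
      · have e1 := nl c1
        have e1' := hne (q - 1) (by omega)
        rw [if_neg (by omega), if_neg (show ¬ q = 1 by omega), if_neg (show ¬ q = n by omega),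
          show q + 1 - 1 = q by omega]
        rcases Nat.lt_or_ge (q + 1) n with c2 | c2
        · have e := nr c2
          rw [if_neg (by omega), e, e1', e1, hj, Nat.min_eq_left (by omega),
            Nat.min_eq_left (by omega)]
          unfold Uval
          split_ifs <;> omega
        · have c3 : q + 1 = n := by omega
          rw [if_pos c3, show n - 1 = q by omega, e1', e1, hj, Nat.min_eq_left (by omega)]
          unfold Uval
          split_ifs <;> omega
    · by_cases hq' : q = j + 1
      · subst hq'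
        rw [if_neg hq, if_pos rfl, hj1]
        unfold M
        rw [if_neg (show ¬ j + 1 = 1 by omega), if_neg (show ¬ j = n by omega),
          show j + 1 - 1 = j by omega]
        rcases Nat.lt_or_ge (j + 1) n with c2 | c2
        · have e := nr c2
          have e' := hne (j + 1) (by omega)
          rw [if_neg (show ¬ j + 1 = n by omega), e', e, hj]
          rcases Nat.lt_or_ge j 2 with c1 | c1
          · have : j = 1 := by omega
            subst this
            rw [if_pos rfl, Nat.min_eq_right (by omega)]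
            unfold Uval
            split_ifs <;> omega
          · have e1 := nl c1
            rw [if_neg (by omega), e1, Nat.min_eq_right (by omega), Nat.min_eq_right (by omega)]
            unfold Uval
            split_ifs <;> omega
        · have c3 : j + 1 = n := by omega
          rw [if_pos c3, show n - 1 = j by omega, hj]
          have e1 := nl (by omega)
          rw [if_neg (by omega), e1, Nat.min_eq_right (by omega)]
          unfold Uval
          split_ifs <;> omega
      · rw [if_neg hq, if_neg hq', hx.1 q q1 q2]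
        have : M n h' q = M n h q := by
          unfold M
          have e1 := hne 1
          have e2 := hne (n - 1)
          have e3 := hne (q - 1)
          have e4 := hne q
          split_ifs with c1 c2
          · exact e1 (by omega)
          · exact e2 (by omega)
          · rw [e3 (by omega), e4 (by omega)]
        rw [this]
  · intro q hq
    rw [Equiv.Perm.mul_apply, s_apply, if_neg (by omega), if_neg (by omega)]
    exact hx.2 q hq


lemma state_vals {n p : ℕ} (hn : 3 ≤ n) {h h' : ℕ → ℕ} (hh : h ∈ Adm n p)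
    (hh' : h' ∈ Adm n p) {x : Equiv.Perm ℕ} {j : ℕ} (j1 : 1 ≤ j) (j2 : j < n)
    (hj : h' j = h j + 2) (hne : ∀ i, i ≠ j → h' i = h i)
    (hx : State n h x) : x j = Uval n (h j) j ∧ x (j + 1) = Uval n (h j) (j + 1) := by
  obtain ⟨a1, a2, a3⟩ := hh
  obtain ⟨b1, b2, b3⟩ := hh'
  have pj := a1 j j1 j2
  have pj' := b1 j j1 j2
  -- neighbours
  have nl : 2 ≤ j → h (j - 1) = h j + 1 := by
    intro h2
    have e1 := a2 (j - 1) (by omega) (by omega)
    have e2 := b2 (j - 1) (by omega) (by omega)
    rw [show j - 1 + 1 = j by omega] at e1 e2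
    have e3 := hne (j - 1) (by omega)
    omega
  have nr : j + 1 < n → h (j + 1) = h j + 1 := by
    intro h2
    have e1 := a2 j (by omega) (by omega)
    have e2 := b2 j (by omega) (by omega)
    have e3 := hne (j + 1) (by omega)
    omega
  have hj1 := hx.1 j j1 (by omega)
  have hj2 := hx.1 (j + 1) (by omega) (by omega)
  have m1 : M n h j = h j := by
    unfold M
    split_ifs with c1 c2
    · rw [c1]
    · omega
    · rw [nl (by omega)]; omega
  have m2 : M n h (j + 1) = h j := by
    unfold M
    split_ifs with c1 c2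
    · omega
    · rw [show n - 1 = j by omega]
    · rw [nr (by omega), show j + 1 - 1 = j by omega]; omega
  rw [m1] at hj1
  rw [m2] at hj2
  exact ⟨hj1, hj2⟩

lemma Uval_lt {n i t : ℕ} (h1 : 1 ≤ i) (h2 : i < n) (h3 : i % 2 ≠ t % 2) (h4 : t < n) :
    1 ≤ Uval n t i ∧ Uval n t i < Uval n t (i + 1) ∧ Uval n t (i + 1) ≤ n := by
  unfold Uval
  split_ifs <;> omega

lemma Uval_inj {n i t i' t' : ℕ} (h1 : 1 ≤ i) (h2 : i < n) (h3 : i % 2 ≠ t % 2) (h4 : t < n)
    (h1' : 1 ≤ i') (h2' : i' < n) (h3' : i' % 2 ≠ t' % 2) (h4' : t' < n)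
    (e1 : Uval n t i = Uval n t' i') (e2 : Uval n t (i + 1) = Uval n t' (i' + 1)) :
    i = i' ∧ t = t' := by
  unfold Uval at e1 e2
  split_ifs at e1 e2 <;> omega

lemma inv_step {n p : ℕ} (hn : 3 ≤ n) (hpn : 2 * p ≤ n) {h h' : ℕ → ℕ} (hh : h ∈ Adm n p)
    (hh' : h' ∈ Adm n p) {x : Equiv.Perm ℕ} {j : ℕ} (j1 : 1 ≤ j) (j2 : j < n)
    (hj : h' j = h j + 2) (hne : ∀ i, i ≠ j → h' i = h i)
    (hx : State n h x) (hi : InvDesc n h x) : InvDesc n h' (x * s j) := by
  obtain ⟨v1, v2⟩ := state_vals hn hh hh' j1 j2 hj hne hx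
  have pj := hh.1 j j1 j2
  have pj' := hh'.1 j j1 j2
  have hlt := Uval_lt (n := n) (t := h j) j1 j2 (by omega) (by omega)
  intro a b ha hab hb
  have hI := hi a b ha hab hb
  have hs : ∀ q, (x * s j)⁻¹ q = s j (x⁻¹ q) := by
    intro q
    rw [mul_inv_rev, Equiv.Perm.mul_apply]
    have : (s j)⁻¹ = s j := by unfold s; exact Equiv.swap_inv _ _
    rw [this]
  rw [hs, hs]
  have hxne : x⁻¹ a ≠ x⁻¹ b := fun h => by
    have := x⁻¹.injective h
    omega
  by_cases hc : a = Uval n (h j) j ∧ b = Uval n (h j) (j + 1)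
  · obtain ⟨c1, c2⟩ := hc
    have d1 : x⁻¹ a = j := by rw [c1, ← v1]; simp
    have d2 : x⁻¹ b = j + 1 := by rw [c2, ← v2]; simp
    rw [d1, d2, s_apply, s_apply]
    constructor
    · intro _
      exact ⟨j, h j, j1, j2, by omega, by omega, c1.symm, c2.symm⟩
    · intro _
      split_ifs <;> omega
  · have hnot : ¬ (x⁻¹ a = j ∧ x⁻¹ b = j + 1) := by
      rintro ⟨d1, d2⟩
      apply hc
      rw [← v1, ← v2, ← d1]
      constructor
      · simp
      · rw [d1, ← d2]; simp
    have hnot' : ¬ (x⁻¹ b = j ∧ x⁻¹ a = j + 1) := by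
      rintro ⟨d1, d2⟩
      have c1 : b = Uval n (h j) j := by rw [← v1, ← d1]; simp
      have c2 : a = Uval n (h j) (j + 1) := by rw [← v2, ← d2]; simp
      omega
    have e : (s j (x⁻¹ b) < s j (x⁻¹ a)) ↔ (x⁻¹ b < x⁻¹ a) := by
      rw [s_apply, s_apply]
      split_ifs <;> omega
    rw [e, hI]
    constructor
    · rintro ⟨i, t, h1, h2, h3, h4, h5, h6⟩
      refine ⟨i, t, h1, h2, h3, ?_, h5, h6⟩
      by_cases hij : i = j
      · subst hij; omega
      · rw [hne i hij]; exact h4
    · rintro ⟨i, t, h1, h2, h3, h4, h5, h6⟩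
      refine ⟨i, t, h1, h2, h3, ?_, h5, h6⟩
      by_cases hij : i = j
      · subst hij
        by_contra h7
        have : t = h i := by omega
        subst this
        exact hc ⟨h5.symm, h6.symm⟩
      · rw [hne i hij] at h4; exact h4

lemma desc_prefix {n p : ℕ} (hn : 3 ≤ n) (hpn : 2 * p ≤ n) {v : List ℕ}
    (hv : v ∈ commClass (altWord n (2 * p))) : ∀ m, m ≤ v.length →
    State n (hgt n (v.take m)) (prodWord (v.take m)) ∧
      InvDesc n (hgt n (v.take m)) (prodWord (v.take m))
  | 0, _ => by
    rw [List.take_zero, prodWord_nil]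
    refine ⟨⟨?_, ?_⟩, ?_⟩
    · intro q q1 q2
      have hM : M n (hgt n []) q = if q = n ∧ n % 2 = 1 then 1 else 0 := by
        unfold M hgt
        simp only [List.count_nil]
        split_ifs <;> omega
      rw [hM]
      simp only [Equiv.Perm.coe_one, id]
      unfold Uval
      split_ifs <;> omega
    · intro q _; simp
    · intro a b ha hab hb
      constructor
      · intro h
        simp at h
        omega
      · rintro ⟨i, t, h1, h2, h3, h4, h5, h6⟩
        simp only [hgt, List.count_nil] at h4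
        split_ifs at h4 <;> omega
  | m + 1, hm => by
    obtain ⟨ih1, ih2⟩ := desc_prefix hn hpn hv m (by omega)
    have hmem : v[m] ∈ v := List.getElem_mem _
    have hmem' : v[m] ∈ altWord n (2 * p) := (class_perm hv).mem_iff.2 hmem
    have hr : 1 ≤ v[m] ∧ v[m] < n := by
      by_contra hcon
      have h0 := count_altWord_out n (v[m]) (by omega) (2 * p)
      exact (List.count_pos_iff.2 hmem').ne' h0
    have htk : v.take (m + 1) = v.take m ++ [v[m]] := by
      rw [List.take_succ_eq_append_getElem (by omega)]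
    have hj : hgt n (v.take (m + 1)) v[m] = hgt n (v.take m) v[m] + 2 := by
      unfold hgt
      rw [htk, List.count_append, if_pos hr, if_pos hr, List.count_singleton_self]
      omega
    have hne : ∀ i, i ≠ v[m] → hgt n (v.take (m + 1)) i = hgt n (v.take m) i := by
      intro i hi
      unfold hgt
      rw [htk, List.count_append]
      have : List.count i [v[m]] = 0 := by
        rw [List.count_eq_zero]; simpa using hi
      rw [this, add_zero]
    have hA := hgt_adm hv m
    have hB := hgt_adm hv (m + 1)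
    have hS := state_step hn hpn hA hB hr.1 hr.2 hj hne ih1
    have hI := inv_step hn hpn hA hB hr.1 hr.2 hj hne ih1 ih2
    have hp : prodWord (v.take (m + 1)) = prodWord (v.take m) * s v[m] := by
      rw [htk, prodWord_append, prodWord_singleton]
    rw [hp]
    exact ⟨hS, hI⟩

/-! ### every admissible height function is realised -/

/-- labelled alternating word -/
def lword (n : ℕ) : ℕ → List (ℕ × ℕ)
  | 0 => []
  | t + 1 => lword n t ++ (block n t).map (fun i => (i, t))

lemma lword_fst (n : ℕ) : ∀ t, (lword n t).map Prod.fst = altWord n t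
  | 0 => rfl
  | t + 1 => by
    rw [lword, List.map_append, lword_fst n t, altWord_succ, List.map_map]
    congr 1
    exact List.map_id _

lemma lword_mem {n : ℕ} : ∀ {T : ℕ} {x : ℕ × ℕ}, x ∈ lword n T →
    1 ≤ x.1 ∧ x.1 < n ∧ x.1 % 2 ≠ x.2 % 2 ∧ x.2 < T
  | 0, x, h => by simp [lword] at h
  | T + 1, x, h => by
    rw [lword, List.mem_append] at h
    rcases h with h | h
    · have := lword_mem h; omega
    · rw [List.mem_map] at h
      obtain ⟨i, hi, rfl⟩ := h
      rw [mem_block] at hi
      simp only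
      omega

lemma lword_pairwise (n : ℕ) : ∀ T, (lword n T).Pairwise
    (fun x y => x.2 < y.2 ∨ (x.2 = y.2 ∧ x.1 + 2 ≤ y.1))
  | 0 => List.Pairwise.nil
  | T + 1 => by
    rw [lword, List.pairwise_append]
    refine ⟨lword_pairwise n T, ?_, ?_⟩
    · rw [List.pairwise_map]
      exact (block_pairwise n T).imp (fun {a b} h => Or.inr ⟨rfl, h⟩)
    · intro a ha b hb
      rw [List.mem_map] at hb
      obtain ⟨i, hi, rfl⟩ := hb
      exact Or.inl (lword_mem ha).2.2.2

lemma cons_congr {u v : List ℕ} (z : ℕ) (h : CommStep u v) : CommStep (z :: u) (z :: v) := by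
  obtain ⟨x, y, a, b, hab⟩ := h
  exact CommStep.swap (z :: x) y a b hab

lemma cons_congr' {u v : List ℕ} (z : ℕ) (h : Relation.ReflTransGen CommStep u v) :
    Relation.ReflTransGen CommStep (z :: u) (z :: v) := by
  induction h with
  | refl => exact Relation.ReflTransGen.refl
  | tail _ hs ih => exact ih.tail (cons_congr z hs)

lemma move {z : ℕ} : ∀ (F G : List ℕ), (∀ f ∈ F, z + 2 ≤ f ∨ f + 2 ≤ z) →
    Relation.ReflTransGen CommStep (z :: (F ++ G)) (F ++ z :: G)
  | [], G, _ => Relation.ReflTransGen.refl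
  | f :: F, G, h => by
    have h1 : CommStep (z :: f :: (F ++ G)) (f :: z :: (F ++ G)) :=
      CommStep.swap [] (F ++ G) z f (h f List.mem_cons_self)
    have h2 := cons_congr' f (move F G (fun g hg => h g (List.mem_cons_of_mem _ hg)))
    exact Relation.ReflTransGen.head h1 h2

lemma partition_comm (P : ℕ × ℕ → Bool) : ∀ L : List (ℕ × ℕ),
    L.Pairwise (fun x y => P x = false → P y = true → (x.1 + 2 ≤ y.1 ∨ y.1 + 2 ≤ x.1)) →
    Relation.ReflTransGen CommStep (L.map Prod.fst)
      ((L.filter P).map Prod.fst ++ (L.filter (fun x => !P x)).map Prod.fst)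
  | [], _ => Relation.ReflTransGen.refl
  | z :: L, hL => by
    rw [List.pairwise_cons] at hL
    have ih := cons_congr' z.1 (partition_comm P L hL.2)
    rw [List.map_cons]
    cases hz : P z with
    | true =>
      rw [List.filter_cons_of_pos hz, List.filter_cons_of_neg (by simp [hz]), List.map_cons,
        List.cons_append]
      exact ih
    | false =>
      rw [List.filter_cons_of_neg (by simp [hz]), List.filter_cons_of_pos (by simp [hz]),
        List.map_cons]
      refine ih.trans (move _ _ ?_)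
      intro f hf
      rw [List.mem_map] at hf
      obtain ⟨y, hy, rfl⟩ := hf
      rw [List.mem_filter] at hy
      exact hL.1 y hy.1 hz hy.2

/-- the prefix word of a height function -/
def hword (n p : ℕ) (h : ℕ → ℕ) : List ℕ :=
  ((lword n (2 * p)).filter (fun x => decide (x.2 < h x.1))).map Prod.fst

def hrest (n p : ℕ) (h : ℕ → ℕ) : List ℕ :=
  ((lword n (2 * p)).filter (fun x => !decide (x.2 < h x.1))).map Prod.fst

lemma hword_mem_class {n p : ℕ} {h : ℕ → ℕ} (hh : h ∈ Adm n p) :
    hword n p h ++ hrest n p h ∈ commClass (altWord n (2 * p)) := by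
  obtain ⟨a1, a2, a3⟩ := hh
  unfold commClass
  rw [Set.mem_ofPred_eq, ← lword_fst]
  apply partition_comm
  refine (lword_pairwise n (2 * p)).imp_of_mem ?_
  intro x y hx hy hxy h1 h2
  have mx := lword_mem hx
  have my := lword_mem hy
  rw [decide_eq_false_iff_not] at h1
  rw [decide_eq_true_eq] at h2
  by_contra hcon
  have h3 : x.1 = y.1 ∨ x.1 + 1 = y.1 ∨ y.1 + 1 = x.1 := by omega
  rcases h3 with h3 | h3 | h3
  · rw [h3] at h1; omega
  · have := a2 x.1 mx.1 (by omega)
    rw [h3] at this
    omega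
  · have := a2 y.1 my.1 (by omega)
    rw [h3] at this
    omega

lemma count_filter_lword (n : ℕ) (h : ℕ → ℕ) (i : ℕ) (h1 : 1 ≤ i) (h2 : i < n) : ∀ T : ℕ,
    (((lword n T).filter (fun x => decide (x.2 < h x.1))).map Prod.fst).count i =
      (min T (h i) + i % 2) / 2
  | 0 => by simp [lword]
  | T + 1 => by
    rw [lword, List.filter_append, List.map_append, List.count_append,
      count_filter_lword n h i h1 h2 T]
    have e : (List.filter (fun x : ℕ × ℕ => decide (x.2 < h x.1))
        ((block n T).map (fun i => (i, T)))).map Prod.fst =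
        (block n T).filter (fun i => decide (T < h i)) := by
      rw [List.filter_map, List.map_map]
      have : (Prod.fst ∘ fun i : ℕ => (i, T)) = id := rfl
      rw [this, List.map_id]
      rfl
    rw [e]
    have e2 : ((block n T).filter (fun i => decide (T < h i))).count i =
        if T < h i then (block n T).count i else 0 := by
      split_ifs with hc
      · rw [List.count_filter]; simpa using hc
      · rw [List.count_eq_zero, List.mem_filter]; simpa using fun _ => by omega
    rw [e2, count_block]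
    split_ifs <;> omega

lemma hgt_hword {n p : ℕ} {h : ℕ → ℕ} (hh : h ∈ Adm n p) : hgt n (hword n p h) = h := by
  obtain ⟨a1, a2, a3⟩ := hh
  funext i
  unfold hgt
  by_cases hi : 1 ≤ i ∧ i < n
  · rw [if_pos hi]
    unfold hword
    rw [count_filter_lword n h i hi.1 hi.2]
    have := a1 i hi.1 hi.2
    split_ifs <;> omega
  · rw [if_neg hi, a3 i (by omega)]


/-- the permutation of a height function -/
def X (n p : ℕ) (h : ℕ → ℕ) : Equiv.Perm ℕ := prodWord (hword n p h)

lemma desc_X {n p : ℕ} (hn : 3 ≤ n) (hpn : 2 * p ≤ n) {h : ℕ → ℕ} (hh : h ∈ Adm n p) :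
    State n h (X n p h) ∧ InvDesc n h (X n p h) := by
  have hc := hword_mem_class hh
  have := desc_prefix hn hpn hc (hword n p h).length (by simp)
  have e : (hword n p h ++ hrest n p h).take (hword n p h).length = hword n p h := by simp
  rw [e, hgt_hword hh] at this
  exact this

lemma state_unique {n : ℕ} {h : ℕ → ℕ} {x y : Equiv.Perm ℕ} (hx : State n h x)
    (hy : State n h y) : x = y := by
  ext q
  by_cases hq : 1 ≤ q ∧ q ≤ n
  · rw [hx.1 q hq.1 hq.2, hy.1 q hq.1 hq.2]
  · rw [hx.2 q (by omega), hy.2 q (by omega)]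

lemma Pre_eq {n p : ℕ} (hn : 3 ≤ n) (hpn : 2 * p ≤ n) :
    Pre (altWord n (2 * p)) = X n p '' Adm n p := by
  ext x
  constructor
  · rintro ⟨v, hv, m, hm, rfl⟩
    refine ⟨hgt n (v.take m), hgt_adm hv m, ?_⟩
    exact state_unique (desc_X hn hpn (hgt_adm hv m)).1 (desc_prefix hn hpn hv m hm).1
  · rintro ⟨h, hh, rfl⟩
    refine ⟨_, hword_mem_class hh, (hword n p h).length, by simp, ?_⟩
    unfold X
    congr 1
    simp

/-- the crossing `(i,t)` decides the relative order of its two values -/
lemma inv_iff {n p : ℕ} (hpn : 2 * p ≤ n) {h : ℕ → ℕ} (hh : h ∈ Adm n p)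
    {x : Equiv.Perm ℕ} (hx : InvDesc n h x)
    {i t : ℕ} (h1 : 1 ≤ i) (h2 : i < n) (h3 : i % 2 ≠ t % 2) (h4 : t < 2 * p) :
    x⁻¹ (Uval n t (i + 1)) < x⁻¹ (Uval n t i) ↔ t < h i := by
  obtain ⟨g1, g2, g3⟩ := Uval_lt h1 h2 h3 (show t < n by omega)
  rw [hx _ _ g1 g2 g3]
  constructor
  · rintro ⟨i', t', k1, k2, k3, k4, k5, k6⟩
    have := hh.1 i' k1 k2
    have hu := Uval_inj k1 k2 k3 (by omega) h1 h2 h3 (by omega) k5 k6
    obtain ⟨rfl, rfl⟩ := hu
    exact k4
  · intro hlt
    exact ⟨i, t, h1, h2, h3, hlt, rfl, rfl⟩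

lemma X_inj {n p : ℕ} (hn : 3 ≤ n) (hpn : 2 * p ≤ n) : Set.InjOn (X n p) (Adm n p) := by
  intro h hh h' hh' hxx
  have key : ∀ g g' : ℕ → ℕ, g ∈ Adm n p → g' ∈ Adm n p → X n p g = X n p g' →
      ∀ i, ¬ g i < g' i := by
    intro g g' hg hg' hgg i hi
    by_cases hr : 1 ≤ i ∧ i < n
    · have e1 := hg.1 i hr.1 hr.2
      have e2 := hg'.1 i hr.1 hr.2
      have k1 := inv_iff hpn hg (desc_X hn hpn hg).2 hr.1 hr.2 (t := g i) (by omega) (by omega)
      have k2 := inv_iff hpn hg' (desc_X hn hpn hg').2 hr.1 hr.2 (t := g i) (by omega)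
        (by omega)
      rw [hgg] at k1
      rw [k1] at k2
      omega
    · rw [hg'.2.2 i (by omega)] at hi
      omega
  funext i
  have k1 := key h h' hh hh' hxx i
  have k2 := key h' h hh' hh hxx.symm i
  omega

lemma Adm_finite (n p : ℕ) : (Adm n p).Finite := by
  have hfin : ((fun (h : ℕ → ℕ) (i : Fin n) =>
      (⟨min (h i) (2 * p + 1), by omega⟩ : Fin (2 * p + 2))) '' Adm n p).Finite :=
    Set.toFinite _
  refine hfin.of_finite_image ?_
  intro h hh h' hh' e
  funext i
  by_cases hr : 1 ≤ i ∧ i < n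
  · have := congrFun e ⟨i, hr.2⟩
    simp only [Fin.mk.injEq] at this
    have e1 := hh.1 i hr.1 hr.2
    have e2 := hh'.1 i hr.1 hr.2
    omega
  · rw [hh.2.2 i (by omega), hh'.2.2 i (by omega)]

/-! ### the reflection -/

def btw (i q r : ℕ) : Prop := (i ≤ r ∧ r ≤ q) ∨ (q ≤ r ∧ r ≤ i)

def seg (i c : ℕ) (h : ℕ → ℕ) (q : ℕ) : Prop := ∀ r, btw i q r → h r ≠ c

open Classical in
noncomputable def R (n i c : ℕ) (h : ℕ → ℕ) (q : ℕ) : ℕ :=
  if 1 ≤ q ∧ q < n ∧ seg i c h q then 2 * c - h q else h q

lemma seg_mono {i c : ℕ} {h : ℕ → ℕ} {q r : ℕ} (hs : seg i c h q) (hb : btw i q r) :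
    seg i c h r := by
  intro r' hr'
  apply hs
  unfold btw at *
  omega

lemma seg_R {n i c : ℕ} (hc : 1 ≤ c) (h1 : 1 ≤ i) (h2 : i < n) {h : ℕ → ℕ} {q : ℕ}
    (q1 : 1 ≤ q) (q2 : q < n) : seg i c (R n i c h) q ↔ seg i c h q := by
  constructor
  · intro hs r hr hcon
    have := hs r hr
    apply this
    unfold R
    rw [if_neg]
    · exact hcon
    · rintro ⟨_, _, k⟩
      exact k r (by unfold btw at *; omega) hcon
  · intro hs r hr
    have hrr : 1 ≤ r ∧ r < n := by unfold btw at hr; omega
    unfold R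
    rw [if_pos ⟨hrr.1, hrr.2, seg_mono hs hr⟩]
    have := hs r hr
    omega

lemma continuity {n p : ℕ} {h : ℕ → ℕ} (hh : h ∈ Adm n p) {i c : ℕ} (h1 : 1 ≤ i) (h2 : i < n)
    {q : ℕ} (q1 : 1 ≤ q) (q2 : q < n) (hs : seg i c h q) :
    (h i < c → h q < c) ∧ (c < h i → c < h q) := by
  obtain ⟨a1, a2, a3⟩ := hh
  have up : ∀ k, i + k < n → seg i c h (i + k) →
      (h i < c → h (i + k) < c) ∧ (c < h i → c < h (i + k)) := by
    intro k
    induction k with
    | zero => intro _ _; exact ⟨id, id⟩
    | succ k ih =>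
      intro hk hsk
      have hsk' : seg i c h (i + k) := seg_mono hsk (by unfold btw; omega)
      have := ih (by omega) hsk'
      have hne := hsk (i + (k + 1)) (by unfold btw; omega)
      have hst := a2 (i + k) (by omega) (by omega)
      rw [show i + k + 1 = i + (k + 1) by omega] at hst
      omega
  have down : ∀ k q, q + k = i → 1 ≤ q → seg i c h q →
      (h i < c → h q < c) ∧ (c < h i → c < h q) := by
    intro k
    induction k with
    | zero => intro q hq _ _; rw [show q = i by omega]; exact ⟨id, id⟩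
    | succ k ih =>
      intro q hq hq1 hsk
      have hsk' : seg i c h (q + 1) := seg_mono hsk (by unfold btw; omega)
      have := ih (q + 1) (by omega) (by omega) hsk'
      have hne := hsk q (by unfold btw; omega)
      have hst := a2 q (by omega) (by omega)
      omega
  rcases Nat.le_total i q with hiq | hiq
  · have := up (q - i) (by omega)
    rw [show i + (q - i) = q by omega] at this
    exact this hs
  · exact down (i - q) q (by omega) q1 hs

lemma R_mem {n p : ℕ} {h : ℕ → ℕ} (hh : h ∈ Adm n p) {i c : ℕ}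
    (hb : ∀ q, 1 ≤ q → q < n → seg i c h q → h q ≤ 2 * c ∧ 2 * c - h q ≤ 2 * p + 1) :
    R n i c h ∈ Adm n p := by
  obtain ⟨a1, a2, a3⟩ := hh
  refine ⟨?_, ?_, ?_⟩
  · intro q q1 q2
    have e := a1 q q1 q2
    unfold R
    split_ifs with hc
    · have := hb q q1 q2 hc.2.2
      omega
    · exact e
  · intro q q1 q2
    have e := a2 q q1 q2
    by_cases s1 : seg i c h q
    · have b1 := hb q q1 (by omega) s1
      have r1 : R n i c h q = 2 * c - h q := by unfold R; rw [if_pos ⟨q1, by omega, s1⟩]
      by_cases s2 : seg i c h (q + 1)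
      · have b2 := hb (q + 1) (by omega) (by omega) s2
        have r2 : R n i c h (q + 1) = 2 * c - h (q + 1) := by
          unfold R; rw [if_pos ⟨by omega, by omega, s2⟩]
        rw [r1, r2]
        omega
      · have r2 : R n i c h (q + 1) = h (q + 1) := by
          unfold R; rw [if_neg (fun k => s2 k.2.2)]
        have : h (q + 1) = c := by
          unfold seg at s2
          push Not at s2
          obtain ⟨r, hr1, hr2⟩ := s2
          have hr3 : ¬ btw i q r := fun k => s1 r k hr2
          have : r = q + 1 := by unfold btw at hr1 hr3; omega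
          rw [← this]; exact hr2
        rw [r1, r2]
        omega
    · have r1 : R n i c h q = h q := by
        unfold R; rw [if_neg (fun k => s1 k.2.2)]
      by_cases s2 : seg i c h (q + 1)
      · have b2 := hb (q + 1) (by omega) (by omega) s2
        have r2 : R n i c h (q + 1) = 2 * c - h (q + 1) := by
          unfold R; rw [if_pos ⟨by omega, by omega, s2⟩]
        have : h q = c := by
          unfold seg at s1
          push Not at s1
          obtain ⟨r, hr1, hr2⟩ := s1
          have hr3 : ¬ btw i (q + 1) r := fun k => s2 r k hr2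
          have : r = q := by unfold btw at hr1 hr3; omega
          rw [← this]; exact hr2
        rw [r1, r2]
        omega
      · have r2 : R n i c h (q + 1) = h (q + 1) := by
          unfold R; rw [if_neg (fun k => s2 k.2.2)]
        rw [r1, r2]
        exact e
  · intro q hq
    unfold R
    rw [if_neg (by omega)]
    exact a3 q hq

lemma R_pos {n i c : ℕ} {h : ℕ → ℕ} {q : ℕ} (hq : 1 ≤ q ∧ q < n ∧ seg i c h q) :
    R n i c h q = 2 * c - h q := by unfold R; rw [if_pos hq]

lemma R_neg {n i c : ℕ} {h : ℕ → ℕ} {q : ℕ} (hq : ¬ (1 ≤ q ∧ q < n ∧ seg i c h q)) :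
    R n i c h q = h q := by unfold R; rw [if_neg hq]

lemma RR {n i c : ℕ} (hc : 1 ≤ c) (h1 : 1 ≤ i) (h2 : i < n) {h : ℕ → ℕ}
    (hb : ∀ q, 1 ≤ q → q < n → seg i c h q → h q ≤ 2 * c) : R n i c (R n i c h) = h := by
  funext q
  by_cases hq : 1 ≤ q ∧ q < n ∧ seg i c h q
  · rw [R_pos ⟨hq.1, hq.2.1, (seg_R hc h1 h2 (h := h) hq.1 hq.2.1).2 hq.2.2⟩, R_pos hq]
    have := hb q hq.1 hq.2.1 hq.2.2
    omega
  · rw [R_neg, R_neg hq]
    rintro ⟨k1, k2, k3⟩
    exact hq ⟨k1, k2, (seg_R hc h1 h2 (h := h) k1 k2).1 k3⟩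

/-- an extreme height function (all heights large) -/
def hs1 (n t : ℕ) (q : ℕ) : ℕ := if 1 ≤ q ∧ q < n then 2 * t + 3 - q % 2 else 0

lemma hs1_in {n t q : ℕ} (h1 : 1 ≤ q) (h2 : q < n) : hs1 n t q = 2 * t + 3 - q % 2 := by
  unfold hs1; rw [if_pos ⟨h1, h2⟩]

lemma hs1_mem {n p t : ℕ} (ht : t < p) : hs1 n t ∈ Adm n p := by
  refine ⟨?_, ?_, ?_⟩
  · intro q q1 q2
    rw [hs1_in q1 q2]
    omega
  · intro q q1 q2
    rw [hs1_in q1 (by omega), hs1_in (by omega) q2]
    omega
  · intro q hq
    unfold hs1
    rw [if_neg (by omega)]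

/-- an extreme height function (all heights small) -/
def hs0 (n : ℕ) (q : ℕ) : ℕ := if 1 ≤ q ∧ q < n then 1 - q % 2 else 0

lemma hs0_in {n q : ℕ} (h1 : 1 ≤ q) (h2 : q < n) : hs0 n q = 1 - q % 2 := by
  unfold hs0; rw [if_pos ⟨h1, h2⟩]

lemma hs0_mem {n p : ℕ} : hs0 n ∈ Adm n p := by
  refine ⟨?_, ?_, ?_⟩
  · intro q q1 q2
    rw [hs0_in q1 q2]
    omega
  · intro q q1 q2
    rw [hs0_in q1 (by omega), hs0_in (by omega) q2]
    omega
  · intro q hq
    unfold hs0
    rw [if_neg (by omega)]

lemma low_lt {n p i t : ℕ} (hn : 3 ≤ n) (h1 : 1 ≤ i) (h2 : i < n)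
    (ht : t < p) : {h ∈ Adm n p | h i ≤ t}.ncard < {h ∈ Adm n p | t < h i}.ncard := by
  have hbd : ∀ h ∈ {h ∈ Adm n p | h i ≤ t}, ∀ q, 1 ≤ q → q < n → seg i (t + 1) h q →
      h q ≤ t := by
    intro h hh q q1 q2 hs
    have := (continuity hh.1 h1 h2 q1 q2 hs).1 (by have := hh.2; omega)
    omega
  have hinj : Set.InjOn (R n i (t + 1)) {h ∈ Adm n p | h i ≤ t} := by
    intro h hh h' hh' e
    rw [← RR (c := t + 1) (by omega) h1 h2 (h := h)
      (fun q q1 q2 hs => by have := hbd h hh q q1 q2 hs; omega), e]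
    exact RR (c := t + 1) (by omega) h1 h2 (h := h')
      (fun q q1 q2 hs => by have := hbd h' hh' q q1 q2 hs; omega)
  rw [← hinj.ncard_image]
  apply Set.ncard_lt_ncard _ ((Adm_finite n p).subset (fun h hh => hh.1))
  rw [Set.ssubset_iff_exists]
  refine ⟨?_, ?_⟩
  · rintro _ ⟨h, hh, rfl⟩
    have hs : seg i (t + 1) h i := by
      intro r hr
      have : r = i := by unfold btw at hr; omega
      rw [this]
      have := hh.2
      omega
    refine ⟨R_mem hh.1 (fun q q1 q2 hs => ?_), ?_⟩
    · have := hbd h hh q q1 q2 hs; omega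
    · show t < R n i (t + 1) h i
      rw [R_pos ⟨h1, h2, hs⟩]
      have := hh.2
      omega
  · refine ⟨hs1 n t, ⟨hs1_mem ht, ?_⟩, ?_⟩
    · show t < hs1 n t i
      rw [hs1_in h1 h2]
      omega
    · rintro ⟨h, hh, e⟩
      have e2 := RR (n := n) (c := t + 1) (by omega) h1 h2 (h := h)
        (fun q q1 q2 hs => by have := hbd h hh q q1 q2 hs; omega)
      rw [e] at e2
      have e3 := congrFun e2 2
      have e4 := hh.1.1 2 (by omega) (by omega)
      have hs : seg i (t + 1) (hs1 n t) 2 := by
        intro r hr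
        have : 1 ≤ r ∧ r < n := by unfold btw at hr; omega
        rw [hs1_in this.1 this.2]
        omega
      rw [R_pos ⟨by omega, by omega, hs⟩, hs1_in (by omega) (by omega)] at e3
      omega

lemma high_lt {n p i t : ℕ} (hn : 3 ≤ n) (hp : 1 ≤ p) (h1 : 1 ≤ i) (h2 : i < n)
    (h3 : i % 2 ≠ t % 2) (ht : p ≤ t) :
    {h ∈ Adm n p | t < h i}.ncard < {h ∈ Adm n p | h i ≤ t}.ncard := by
  have hge : ∀ h ∈ {h ∈ Adm n p | t < h i}, t + 2 ≤ h i := by
    intro h hh
    have e1 := hh.1.1 i h1 h2
    have e2 := hh.2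
    omega
  have hbd : ∀ h ∈ {h ∈ Adm n p | t < h i},
      ∀ q, 1 ≤ q → q < n → seg i (t + 1) h q → t + 1 < h q ∧ h q ≤ 2 * p + 1 := by
    intro h hh q q1 q2 hs
    have e1 := (continuity hh.1 h1 h2 q1 q2 hs).2 (by have := hge h hh; omega)
    have e2 := hh.1.1 q q1 q2
    omega
  have hinj : Set.InjOn (R n i (t + 1)) {h ∈ Adm n p | t < h i} := by
    intro h hh h' hh' e
    rw [← RR (c := t + 1) (by omega) h1 h2 (h := h)
      (fun q q1 q2 hs => by have := hbd h hh q q1 q2 hs; omega), e]
    exact RR (c := t + 1) (by omega) h1 h2 (h := h')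
      (fun q q1 q2 hs => by have := hbd h' hh' q q1 q2 hs; omega)
  rw [← hinj.ncard_image]
  apply Set.ncard_lt_ncard _ ((Adm_finite n p).subset (fun h hh => hh.1))
  rw [Set.ssubset_iff_exists]
  refine ⟨?_, ?_⟩
  · rintro _ ⟨h, hh, rfl⟩
    have hs : seg i (t + 1) h i := by
      intro r hr
      have : r = i := by unfold btw at hr; omega
      rw [this]
      have := hge h hh
      omega
    refine ⟨R_mem hh.1 (fun q q1 q2 hs => ?_), ?_⟩
    · have := hbd h hh q q1 q2 hs; omega
    · show R n i (t + 1) h i ≤ t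
      rw [R_pos ⟨h1, h2, hs⟩]
      have := hge h hh
      omega
  · refine ⟨hs0 n, ⟨hs0_mem, ?_⟩, ?_⟩
    · show hs0 n i ≤ t
      rw [hs0_in h1 h2]
      omega
    · rintro ⟨h, hh, e⟩
      have e2 := RR (n := n) (c := t + 1) (by omega) h1 h2 (h := h)
        (fun q q1 q2 hs => by have := hbd h hh q q1 q2 hs; omega)
      rw [e] at e2
      have e3 := congrFun e2 1
      have e4 := hh.1.1 1 (by omega) (by omega)
      have hs : seg i (t + 1) (hs0 n) 1 := by
        intro r hr
        have : 1 ≤ r ∧ r < n := by unfold btw at hr; omega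
        rw [hs0_in this.1 this.2]
        omega
      rw [R_pos ⟨by omega, by omega, hs⟩, hs0_in (by omega) (by omega)] at e3
      omega

/-! ### the main statement -/

lemma altWord_prefix (n T : ℕ) : ∀ k, altWord n T <+: altWord n (T + k)
  | 0 => List.prefix_refl _
  | k + 1 => (altWord_prefix n T k).trans (List.prefix_append _ _)

lemma hgt_altWord {n p : ℕ} {i t : ℕ} (h1 : 1 ≤ i) (h2 : i < n) (h3 : i % 2 ≠ t % 2) :
    t < hgt n (altWord n p) i ↔ t < p := by
  unfold hgt
  rw [if_pos ⟨h1, h2⟩, count_altWord n i h1 h2]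
  split_ifs <;> omega

lemma main_lt {n p : ℕ} (hn : 3 ≤ n) (hp : 1 ≤ p) (hpn : 2 * p ≤ n) {a b : ℕ}
    (ha : 1 ≤ a) (hab : a < b) (hb : b ≤ n) :
    ((prodWord (altWord n p))⁻¹ a < (prodWord (altWord n p))⁻¹ b ∧
      Majority (Pre (altWord n (2 * p))) a b ∧ ¬ Majority (Pre (altWord n (2 * p))) b a) ∨
    ((prodWord (altWord n p))⁻¹ b < (prodWord (altWord n p))⁻¹ a ∧
      Majority (Pre (altWord n (2 * p))) b a ∧ ¬ Majority (Pre (altWord n (2 * p))) a b) := by
  have hu : InvDesc n (hgt n (altWord n p)) (prodWord (altWord n p)) ∧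
      hgt n (altWord n p) ∈ Adm n p := by
    have hv : altWord n (2 * p) ∈ commClass (altWord n (2 * p)) := Relation.ReflTransGen.refl
    have hpre : altWord n p <+: altWord n (2 * p) := by
      have := altWord_prefix n p p
      rwa [← two_mul] at this
    have htk : (altWord n (2 * p)).take (altWord n p).length = altWord n p :=
      (List.prefix_iff_eq_take.1 hpre).symm
    have h1 := (desc_prefix hn hpn hv (altWord n p).length hpre.length_le).2
    have h2 := hgt_adm hv (altWord n p).length
    rw [htk] at h1 h2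
    exact ⟨h1, h2⟩
  have hne : ∀ x : Equiv.Perm ℕ, x⁻¹ a ≠ x⁻¹ b := fun x h => by
    have := x⁻¹.injective h
    omega
  have hDfin : (Pre (altWord n (2 * p))).Finite := by
    rw [Pre_eq hn hpn]
    exact (Adm_finite n p).image _
  unfold Majority
  by_cases hex : ∃ i t, 1 ≤ i ∧ i < n ∧ i % 2 ≠ t % 2 ∧ t < 2 * p ∧
      Uval n t i = a ∧ Uval n t (i + 1) = b
  · obtain ⟨i, t, h1, h2, h3, h4, rfl, rfl⟩ := hex
    have hinv : ∀ h ∈ Adm n p, ((X n p h)⁻¹ (Uval n t (i + 1)) < (X n p h)⁻¹ (Uval n t i) ↔
        t < h i) := fun h hh => inv_iff hpn hh (desc_X hn hpn hh).2 h1 h2 h3 h4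
    have s1 : {x ∈ Pre (altWord n (2 * p)) | x⁻¹ (Uval n t (i + 1)) < x⁻¹ (Uval n t i)} =
        X n p '' {h ∈ Adm n p | t < h i} := by
      rw [Pre_eq hn hpn]
      ext x
      constructor
      · rintro ⟨⟨h, hh, rfl⟩, hx⟩
        exact ⟨h, ⟨hh, (hinv h hh).1 hx⟩, rfl⟩
      · rintro ⟨h, ⟨hh, hlt⟩, rfl⟩
        exact ⟨⟨h, hh, rfl⟩, (hinv h hh).2 hlt⟩
    have s2 : {x ∈ Pre (altWord n (2 * p)) | x⁻¹ (Uval n t i) < x⁻¹ (Uval n t (i + 1))} =
        X n p '' {h ∈ Adm n p | h i ≤ t} := by
      rw [Pre_eq hn hpn]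
      ext x
      constructor
      · rintro ⟨⟨h, hh, rfl⟩, hx⟩
        refine ⟨h, ⟨hh, ?_⟩, rfl⟩
        by_contra hcon
        have := (hinv h hh).2 (by omega)
        omega
      · rintro ⟨h, ⟨hh, hle⟩, rfl⟩
        refine ⟨⟨h, hh, rfl⟩, ?_⟩
        have k1 : ¬ ((X n p h)⁻¹ (Uval n t (i + 1)) < (X n p h)⁻¹ (Uval n t i)) := fun k => by
          have := (hinv h hh).1 k
          omega
        have k2 := hne (X n p h)
        omega
    have c1 : {x ∈ Pre (altWord n (2 * p)) | x⁻¹ (Uval n t (i + 1)) < x⁻¹ (Uval n t i)}.ncard =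
        {h ∈ Adm n p | t < h i}.ncard := by
      rw [s1]
      exact ((X_inj hn hpn).mono (fun h hh => hh.1)).ncard_image
    have c2 : {x ∈ Pre (altWord n (2 * p)) | x⁻¹ (Uval n t i) < x⁻¹ (Uval n t (i + 1))}.ncard =
        {h ∈ Adm n p | h i ≤ t}.ncard := by
      rw [s2]
      exact ((X_inj hn hpn).mono (fun h hh => hh.1)).ncard_image
    rw [c1, c2]
    have hui := inv_iff hpn hu.2 hu.1 h1 h2 h3 h4
    rw [hgt_altWord h1 h2 h3] at hui
    rcases Nat.lt_or_ge t p with htp | htp
    · right
      have := low_lt (p := p) hn h1 h2 htp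
      exact ⟨hui.2 htp, this, by omega⟩
    · left
      have := high_lt (p := p) hn hp h1 h2 h3 htp
      refine ⟨?_, this, by omega⟩
      have k2 := hne (prodWord (altWord n p))
      have k1 : ¬ ((prodWord (altWord n p))⁻¹ (Uval n t (i + 1)) <
          (prodWord (altWord n p))⁻¹ (Uval n t i)) := fun k => by
        have := hui.1 k
        omega
      omega
  · left
    have hno : ∀ h ∈ Adm n p, ∀ x : Equiv.Perm ℕ, InvDesc n h x → ¬ (x⁻¹ b < x⁻¹ a) := by
      intro h hh x hx hlt
      obtain ⟨i, t, k1, k2, k3, k4, k5, k6⟩ := (hx a b ha hab hb).1 hlt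
      apply hex
      have := hh.1 i k1 k2
      exact ⟨i, t, k1, k2, k3, by omega, k5, k6⟩
    have s1 : {x ∈ Pre (altWord n (2 * p)) | x⁻¹ b < x⁻¹ a} = ∅ := by
      rw [Pre_eq hn hpn, Set.eq_empty_iff_forall_notMem]
      rintro x ⟨⟨h, hh, rfl⟩, hx⟩
      exact hno h hh _ (desc_X hn hpn hh).2 hx
    have hpos : 0 < {x ∈ Pre (altWord n (2 * p)) | x⁻¹ a < x⁻¹ b}.ncard := by
      rw [Set.ncard_pos (hDfin.subset (fun x hx => hx.1))]
      refine ⟨X n p (hs0 n), ?_, ?_⟩
      · rw [Pre_eq hn hpn]
        exact ⟨hs0 n, hs0_mem, rfl⟩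
      · have k1 := hno (hs0 n) hs0_mem _ (desc_X hn hpn hs0_mem).2
        have k2 := hne (X n p (hs0 n))
        omega
    rw [s1, Set.ncard_empty]
    refine ⟨?_, hpos, by omega⟩
    have k1 := hno _ hu.2 _ hu.1
    have k2 := hne (prodWord (altWord n p))
    omega

lemma u_eq (n : ℕ) : ∀ p, prodWord (altWord n p) = u n p
  | 0 => by simp [altWord, prodWord, u]
  | p + 1 => by
    have ih := u_eq n p
    rw [altWord_succ, prodWord_append, ih]
    unfold u block
    rcases Nat.mod_two_eq_zero_or_one p with hp | hp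
    · rw [if_neg (by omega), if_pos hp, if_pos (by omega), show p + 1 - 1 = p by omega]
    · rw [if_pos hp, if_neg (by omega), if_neg (by omega), show (p + 1) / 2 = (p - 1) / 2 + 1 by omega,
        pow_succ, mul_assoc]
      rfl

/-- **Majority relation on the Condorcet domains `D_{n,p}`.** For all `n ≥ 3` and `1 ≤ p ≤ n/2`
let `D_{n,p}` be the (finite) set of all products of prefixes of words in the commutation class
of the word `i_p` with `2p` alternating blocks (whose product is `c^p`). Then the majority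
relation of the uniform tally on `D_{n,p}` is the linear order `<_{u_p}`. -/
theorem result (n p : ℕ) (hn : 3 ≤ n) (hp : 1 ≤ p) (hpn : 2 * p ≤ n) :
    prodWord (altWord n (2 * p)) = cox n ^ p ∧ (Pre (altWord n (2 * p))).Finite ∧
    ∀ a b, 1 ≤ a → a ≤ n → 1 ≤ b → b ≤ n → a ≠ b →
      (Majority (Pre (altWord n (2 * p))) a b ↔ (u n p)⁻¹ a < (u n p)⁻¹ b) := by
  refine ⟨?_, ?_, ?_⟩
  · rw [u_eq]; unfold u; rw [if_neg (by omega)]; congr 1; omega
  · rw [Pre_eq hn hpn]
    exact (Adm_finite n p).image _
  · intro a b ha ha' hb hb' hab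
    rw [← u_eq]
    rcases Nat.lt_or_gt_of_ne hab with hlt | hlt
    · rcases main_lt hn hp hpn ha hlt hb' with ⟨k1, k2, k3⟩ | ⟨k1, k2, k3⟩
      · exact ⟨fun _ => k1, fun _ => k2⟩
      · exact ⟨fun k => absurd k k3, fun k => absurd k (by omega)⟩
    · rcases main_lt hn hp hpn hb hlt ha' with ⟨k1, k2, k3⟩ | ⟨k1, k2, k3⟩
      · exact ⟨fun k => absurd k k3, fun k => absurd k (by omega)⟩
      · exact ⟨fun _ => k1, fun _ => k2⟩

end Pool.Agent.Results.MP_43f1fb_co.AlternatingMajority
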